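import Pool.Agent.W785.FD.Stms

/-! Part DENS of MP_024e69_an: thin sets have density zero. -/

set_option autoImplicit false

open MeasureTheory Metric Set Filter
open scoped ENNReal NNReal Topology

namespace Pool.Agent.W174.FD.Dens

open Pool.Agent.W785.FD

lemma aa_tendsto {X : Type*} [MetricSpace X] [MeasurableSpace X] (μ : Measure X) (p : ℝ)
    (hp : 1 < p) (E : Set X) (x : X) (h : ∑' k : ℕ, (aa μ p E x k) ^ (1 / (p - 1)) ≠ ∞) :
    Tendsto (fun k => aa μ p E x k) atTop (𝓝 0) := by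
  have h1 := ENNReal.tendsto_atTop_zero_of_tsum_ne_top h
  have hp1 : 0 < p - 1 := by linarith
  have h2 := ((ENNReal.continuous_rpow_const (y := p - 1)).tendsto 0).comp h1
  rw [ENNReal.zero_rpow_of_pos hp1] at h2
  refine h2.congr fun k => ?_
  rw [Function.comp_apply, ← ENNReal.rpow_mul, one_div_mul_cancel hp1.ne', ENNReal.rpow_one]

lemma dens_le {X : Type*} [MetricSpace X] [MeasurableSpace X] (μ : Measure X) (p D K : ℝ)
    (hD : Dbl μ D) (hK : 0 < K) (E : Set X) (x : X) (k : ℕ) (r : ℝ)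
    (h : μ (E ∩ ball x ((1 / 2) ^ k)) ≤ ENNReal.ofReal (K * ((1 / 2 : ℝ) ^ k) ^ p) *
      capB μ p (E ∩ ball x ((1 / 2) ^ k)) x (2 * (1 / 2) ^ k))
    (h1 : (1 / 2 : ℝ) ^ (k + 1) < r) (h2 : r ≤ (1 / 2 : ℝ) ^ k) :
    dens μ E x r ≤ ENNReal.ofReal D * ENNReal.ofReal K * aa μ p E x k := by
  have hs : (0 : ℝ) < (1 / 2) ^ (k + 1) := by positivity
  have hr : 0 < r := hs.trans h1
  have hs0 : (0 : ℝ) < (1 / 2) ^ k := by positivity
  obtain ⟨b, hb⟩ : ∃ b, b = μ (ball x ((1 / 2 : ℝ) ^ k)) := ⟨_, rfl⟩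
  obtain ⟨c, hc⟩ : ∃ c, c = μ (ball x r) := ⟨_, rfl⟩
  have hb0 : b ≠ 0 := by rw [hb]; exact (hD.pos x _ hs0).ne'
  have hbt : b ≠ ∞ := by rw [hb]; exact (hD.fin x _).ne
  have hc0 : c ≠ 0 := by rw [hc]; exact (hD.pos x _ hr).ne'
  have hct : c ≠ ∞ := by rw [hc]; exact (hD.fin x _).ne
  have hbc : b ≤ ENNReal.ofReal D * c := by
    have e : (1 / 2 : ℝ) ^ k = 2 * (1 / 2) ^ (k + 1) := by rw [pow_succ]; ring
    rw [hb, hc, e]
    refine (hD.dbl x _ hs).trans ?_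
    gcongr
  have hinv : c⁻¹ ≤ ENNReal.ofReal D * b⁻¹ := by
    calc c⁻¹ = c⁻¹ * (b * b⁻¹) := by rw [ENNReal.mul_inv_cancel hb0 hbt, mul_one]
      _ ≤ c⁻¹ * ((ENNReal.ofReal D * c) * b⁻¹) := by gcongr
      _ = (c⁻¹ * c) * (ENNReal.ofReal D * b⁻¹) := by ring
      _ = ENNReal.ofReal D * b⁻¹ := by rw [ENNReal.inv_mul_cancel hc0 hct, one_mul]
  unfold dens
  rw [← hc, div_eq_mul_inv]
  have h3 : μ (E ∩ ball x r) ≤ μ (E ∩ ball x ((1 / 2) ^ k)) :=
    measure_mono (Set.inter_subset_inter_right _ (ball_subset_ball h2))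
  calc μ (E ∩ ball x r) * c⁻¹ ≤ (ENNReal.ofReal (K * ((1 / 2 : ℝ) ^ k) ^ p) *
      capB μ p (E ∩ ball x ((1 / 2) ^ k)) x (2 * (1 / 2) ^ k)) * (ENNReal.ofReal D * b⁻¹) := by
        exact mul_le_mul' (h3.trans h) hinv
    _ = ENNReal.ofReal D * ENNReal.ofReal K * aa μ p E x k := by
        have haa : aa μ p E x k = capB μ p (E ∩ ball x ((1 / 2) ^ k)) x (2 * (1 / 2) ^ k) *
            ENNReal.ofReal (((1 / 2 : ℝ) ^ k) ^ p) * b⁻¹ := by
          rw [hb]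
          exact div_eq_mul_inv _ _
        rw [haa, ENNReal.ofReal_mul hK.le]
        ring

theorem main {X : Type*} [MetricSpace X] [ProperSpace X] [MeasurableSpace X] [BorelSpace X]
    (μ : Measure X) (p D : ℝ) (hp : 1 < p) (hD : Dbl μ D) (h1 : S_THIN μ p) (h2 : S_CLB μ p) :
    S_DENS μ p := by
  intro E x hE
  have ha := aa_tendsto μ p hp E x ((h1 E x).1 hE)
  obtain ⟨K, hK, hx⟩ := h2
  obtain ⟨r0, hr0, hr⟩ := hx x
  have hconst : ENNReal.ofReal D * ENNReal.ofReal K ≠ ∞ :=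
    ENNReal.mul_ne_top ENNReal.ofReal_ne_top ENNReal.ofReal_ne_top
  have hb : Tendsto (fun k => ENNReal.ofReal D * ENNReal.ofReal K * aa μ p E x k) atTop (𝓝 0) := by
    have := ENNReal.Tendsto.const_mul ha (Or.inr hconst)
    rwa [mul_zero] at this
  unfold DZ
  rw [ENNReal.tendsto_nhds_zero]
  intro ε hε
  have h3 : ∀ᶠ k : ℕ in atTop, ENNReal.ofReal D * ENNReal.ofReal K * aa μ p E x k ≤ ε :=
    (ENNReal.tendsto_nhds_zero.1 hb) ε hε
  have h4 : ∀ᶠ k : ℕ in atTop, (1 / 2 : ℝ) ^ k < r0 :=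
    (tendsto_pow_atTop_nhds_zero_of_lt_one (by norm_num) (by norm_num)).eventually
      (gt_mem_nhds hr0)
  obtain ⟨M, hM⟩ := Filter.eventually_atTop.1 (h3.and h4)
  have hMpos : (0 : ℝ) < (1 / 2) ^ M := by positivity
  filter_upwards [Ioo_mem_nhdsGT hMpos] with r hrr
  have hr1 : r ≤ 1 := hrr.2.le.trans (pow_le_one₀ (by norm_num) (by norm_num))
  obtain ⟨k, hk1, hk2⟩ := exists_nat_pow_near_of_lt_one hrr.1 hr1
    (by norm_num : (0 : ℝ) < 1 / 2) (by norm_num)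
  have hkM : M ≤ k := by
    by_contra hcon
    push Not at hcon
    have h5 : (1 / 2 : ℝ) ^ M ≤ (1 / 2) ^ (k + 1) :=
      pow_le_pow_of_le_one (by norm_num) (by norm_num) (by omega)
    linarith [hrr.2]
  obtain ⟨h6, h7⟩ := hM k hkM
  exact (dens_le μ p D K hD hK E x k r (hr _ (by positivity) h7 E) hk1 hk2).trans h6

end Pool.Agent.W174.FD.Dens
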